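import Pool.Agent.Y763.AG.G5

/-!
# Gaps below half the mean spacing: a sharp criterion on the form factor in `(1, 2)`

Assume the Riemann hypothesis, let `F(α, T)` be Montgomery's function, `0 < κ < 1`, and let
`w(α) = (2 - α) / 4 + sin (π α) / (4 π)`, which is positive on `(0, 2)`. Montgomery's theorem gives
`F(α, T) = α` (in the mean) on `(0, 1)`; the Alternative Hypothesis gives `F(α, T) = 2 - α` on
`(1, 2)`. Let `j` be the value of `∫_κ^2 w(α) F(α, T) dα` for these two functions.

(1) If `∫_κ^2 w(α) F(α, T) dα` exceeds `j` by `c > 0`, then a positive proportion of the gaps between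
consecutive ordinates in `[δ T, T]` are below half the mean spacing by a fixed amount.

(2) The threshold `j` is the right one: along any sequence of `T` (or any filter) almost all the
normalised spacings are near the half-integers `1/2, 1, 3/2, …` if and only if the integral tends to
`j` and the proportion of the gaps below one half (by any fixed amount) tends to zero.

Idea of the proof. The Fourier transform of `w(|α|)` on `[-2, 2]` is
`sin²(2 π x) / (4 π² x² (1 - 4 x²))`: at most `1`, positive for `|x| < 1/2`, and nonpositive for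
`|x| ≥ 1/2` with zeros exactly at the nonzero half-integers (the extremal function for the packing
problem with distance one half). By Montgomery's theorem the integral differs from `j`
asymptotically by the sum of this kernel over the pairs of different zeros. Only pairs at distance
below one half contribute positively, and these are controlled by the number of small gaps, since
the clusters of zeros are rare (uniform bound for sums of consecutive gaps, starting files).
-/

set_option autoImplicit false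

open Filter Topology
open Complex (I)

namespace Pool.Agent.Results.MP_ca0a54_nt.SharpFormFactorCriterion

/-- the multiplicity of `s` as a zero of the Riemann zeta function (order of vanishing at `s`) -/
noncomputable def zmult (s : ℂ) : ℕ := analyticOrderNatAt riemannZeta s

/-- the nontrivial zeros of `ζ` with ordinate in `(0, T]` -/
def zeros (T : ℝ) : Set ℂ :=
  {s : ℂ | riemannZeta s = 0 ∧ 0 < s.re ∧ s.re < 1 ∧ 0 < s.im ∧ s.im ≤ T}

/-- the number of the nontrivial zeros of `ζ` with ordinate in `(0, T]`, with multiplicity -/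
noncomputable def N (T : ℝ) : ℕ := ∑ᶠ s ∈ zeros T, zmult s

/-- for `n ≥ 1`: the `n`-th positive ordinate `γ n` of a nontrivial zero of `ζ`, the ordinates being
listed in nondecreasing order and repeated according to multiplicity -/
noncomputable def γ (n : ℕ) : ℝ := sInf {t : ℝ | n ≤ N t}

/-- the normalised spacings `d_n = γ_{n+1} log γ_{n+1} / 2π - γ_n log γ_n / 2π` -/
noncomputable def d (n : ℕ) : ℝ :=
  (γ (n + 1) * Real.log (γ (n + 1)) - γ n * Real.log (γ n)) / (2 * Real.pi)

/-- Montgomery's function `F(α, T)` (a real number, written as a complex one) -/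
noncomputable def F (α T : ℝ) : ℂ :=
  (2 * Real.pi / (T * Real.log T) : ℝ) * ∑ᶠ s ∈ zeros T, ∑ᶠ s' ∈ zeros T,
    (zmult s : ℂ) * (zmult s' : ℂ) *
    ((T : ℂ) ^ (I * α * (s.im - s'.im)) * (4 / (4 + (s.im - s'.im) ^ 2)))

/-- the weight `w(α) = (2 - α) / 4 + sin (π α) / (4 π)` -/
noncomputable def w (α : ℝ) : ℝ := (2 - α) / 4 + Real.sin (Real.pi * α) / (4 * Real.pi)

/-- the weighted integral of Montgomery's function over `(κ, 2)` -/
noncomputable def J (κ T : ℝ) : ℝ := ∫ α in κ..2, w α * (F α T).re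

/-- the value of this integral for `F = α` on `(κ, 1)` and `F = 2 - α` on `(1, 2)` -/
noncomputable def j (κ : ℝ) : ℝ := (∫ α in κ..1, w α * α) + ∫ α in (1 : ℝ)..2, w α * (2 - α)

/-- the proportion, among the spacings `d_n` with `γ_n ≤ T`, of those whose distance from each of
the half-integers `1/2, 1, 3/2, …` is at least `ε` -/
noncomputable def away (ε T : ℝ) : ℝ :=
  ({n : ℕ | 1 ≤ n ∧ γ n ≤ T ∧ ∀ k : ℕ, 1 ≤ k → ε ≤ |d n - k / 2|}.ncard : ℝ) / N T

/-- the proportion, among the spacings `d_n` with `γ_n ≤ T`, of those which are less than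
`1/2 - δ` -/
noncomputable def small (δ T : ℝ) : ℝ :=
  ({n : ℕ | 1 ≤ n ∧ γ n ≤ T ∧ d n < 1 / 2 - δ}.ncard : ℝ) / N T

lemma away_eq (ε T : ℝ) :
    away ε T = ((Pool.Agent.Y763.AH.BT 2 ε T).card : ℝ) / SG.NZ T := by
  classical
  unfold away
  congr 2
  rw [← Set.ncard_coe_finset]
  congr 1
  ext n
  unfold Pool.Agent.Y763.AH.BT Pool.Agent.Y763.AH.Bad
  rw [Finset.mem_coe, Finset.mem_filter, Finset.mem_Ioc]
  constructor
  · rintro ⟨h1, h2, h3⟩
    exact ⟨⟨h1, (SG.ord_le_iff h1 T).1 h2⟩, h3⟩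
  · rintro ⟨⟨h1, h2⟩, h3⟩
    exact ⟨h1, (SG.ord_le_iff h1 T).2 h2, h3⟩

lemma small_eq (δ T : ℝ) :
    small δ T = ((Pool.Agent.Y763.AG.ST δ T).card : ℝ) / SG.NZ T := by
  classical
  unfold small
  congr 2
  rw [← Set.ncard_coe_finset]
  congr 1
  ext n
  unfold Pool.Agent.Y763.AG.ST Pool.Agent.Y763.AG.Sm
  rw [Finset.mem_coe, Finset.mem_filter, Finset.mem_Ioc]
  constructor
  · rintro ⟨h1, h2, h3⟩
    exact ⟨⟨h1, (SG.ord_le_iff h1 T).1 h2⟩, h3⟩
  · rintro ⟨⟨h1, h2⟩, h3⟩
    exact ⟨h1, (SG.ord_le_iff h1 T).2 h2, h3⟩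

lemma QT_eq (δ T : ℝ) :
    ({n : ℕ | 1 ≤ n ∧ δ * T ≤ γ n ∧ γ (n + 1) ≤ T ∧
      γ (n + 1) - γ n < (1 / 2 - δ) * (2 * Real.pi / Real.log T)}.ncard : ℝ) =
      ((Pool.Agent.Y763.AG.QT δ T).card : ℝ) := by
  classical
  congr 1
  rw [← Set.ncard_coe_finset]
  congr 1
  ext n
  unfold Pool.Agent.Y763.AG.QT
  rw [Finset.mem_coe, Finset.mem_filter, Finset.mem_Ioc]
  constructor
  · rintro ⟨h1, h2, h3, h4⟩
    have h5 : SG.ord n ≤ SG.ord (n + 1) := SG.ord_mono h1 (Nat.le_succ n)
    exact ⟨⟨h1, (SG.ord_le_iff h1 T).1 (h5.trans h3)⟩, h2, h3, h4⟩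
  · rintro ⟨⟨h1, _⟩, h3⟩
    exact ⟨h1, h3⟩

lemma F_eq {T : ℝ} (hT : 10 ≤ T) (α : ℝ) : (F α T).re = Pool.Agent.Y749.Rig.Fr T α := by
  have h : F α T = Pool.Agent.Y749.Rig.P.F T α := by
    have hz : zeros T = Pool.Agent.Y744.G.zeros T := by
      ext s
      simp only [zeros, Pool.Agent.Y744.G.zeros, Set.mem_ofPred_eq]
      tauto
    unfold F Pool.Agent.Y749.Rig.P.F
    rw [hz]
    have hX : ((2 * Real.pi / (T * Real.log T) : ℝ) : ℂ) = ((Pool.Agent.Y744.G.X T : ℝ) : ℂ)⁻¹ := by
      rw [← Complex.ofReal_inv]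
      congr 1
      unfold Pool.Agent.Y744.G.X
      rw [div_mul_eq_mul_div, inv_div]
    rw [hX]
    rfl
  rw [h, Pool.Agent.Y749.Rig.P.F_eq hT, Complex.ofReal_re]

lemma J_eq {T : ℝ} (hT : 10 ≤ T) {κ : ℝ} (hκ : 0 < κ) (hκ1 : κ < 1) :
    J κ T = Pool.Agent.Y763.AG.JW κ T := by
  unfold J Pool.Agent.Y763.AG.JW
  refine intervalIntegral.integral_congr fun α hα => ?_
  rw [Set.uIcc_of_le (by linarith)] at hα
  show w α * (F α T).re = Pool.Agent.Y763.AG.wt α * Pool.Agent.Y749.Rig.Fr T α
  rw [F_eq hT, Pool.Agent.Y763.AG.wt_eq (by linarith [hα.1]) hα.2]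
  rfl

lemma w_cont : Continuous w := by
  unfold w
  fun_prop

lemma int1 : ∫ α in (0 : ℝ)..1, w α * α = 1 / 6 + 1 / (4 * Real.pi ^ 2) := by
  have hpi := Real.pi_pos
  have h : ∀ x ∈ Set.uIcc (0 : ℝ) 1, HasDerivAt (fun α : ℝ => (α ^ 2 - α ^ 3 / 3) / 4 +
      (Real.sin (Real.pi * α) / Real.pi ^ 2 - α * Real.cos (Real.pi * α) / Real.pi) / (4 * Real.pi))
      (w x * x) x := by
    intro x _
    have d0 : HasDerivAt (fun α : ℝ => Real.pi * α) Real.pi x := by
      simpa using (hasDerivAt_id x).const_mul Real.pi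
    have d1 : HasDerivAt (fun α : ℝ => (α ^ 2 - α ^ 3 / 3) / 4) ((2 * x - x ^ 2) / 4) x := by
      refine (((hasDerivAt_pow 2 x).sub ((hasDerivAt_pow 3 x).div_const 3)).div_const 4).congr_deriv ?_
      norm_num
    have d2 := (((Real.hasDerivAt_sin (Real.pi * x)).comp x d0).div_const (Real.pi ^ 2)).sub
      (((hasDerivAt_id x).mul ((Real.hasDerivAt_cos (Real.pi * x)).comp x d0)).div_const Real.pi)
    refine (d1.add (d2.div_const (4 * Real.pi))).congr_deriv ?_
    unfold w
    simp only [id, Function.comp]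
    field_simp
    ring
  rw [intervalIntegral.integral_eq_sub_of_hasDerivAt h ((w_cont.mul continuous_id).intervalIntegrable _ _)]
  simp only [mul_one, mul_zero, Real.sin_pi, Real.cos_pi, Real.sin_zero, Real.cos_zero]
  field_simp
  ring

lemma int2 : ∫ α in (1 : ℝ)..2, w α * (2 - α) = 1 / 12 - 1 / (4 * Real.pi ^ 2) := by
  have hpi := Real.pi_pos
  have h : ∀ x ∈ Set.uIcc (1 : ℝ) 2, HasDerivAt (fun α : ℝ => -(2 - α) ^ 3 / 12 +
      (-(2 * Real.cos (Real.pi * α) / Real.pi) - (Real.sin (Real.pi * α) / Real.pi ^ 2 -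
        α * Real.cos (Real.pi * α) / Real.pi)) / (4 * Real.pi)) (w x * (2 - x)) x := by
    intro x _
    have d0 : HasDerivAt (fun α : ℝ => Real.pi * α) Real.pi x := by
      simpa using (hasDerivAt_id x).const_mul Real.pi
    have dm : HasDerivAt (fun α : ℝ => 2 - α) (-1) x := by
      simpa using (hasDerivAt_id x).const_sub 2
    have d1 : HasDerivAt (fun α : ℝ => -(2 - α) ^ 3 / 12) ((2 - x) ^ 2 / 4) x := by
      refine (((dm.pow 3).neg).div_const 12).congr_deriv ?_
      norm_num
      ring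
    have dc := (Real.hasDerivAt_cos (Real.pi * x)).comp x d0
    have ds := (Real.hasDerivAt_sin (Real.pi * x)).comp x d0
    have d2 := (ds.div_const (Real.pi ^ 2)).sub (((hasDerivAt_id x).mul dc).div_const Real.pi)
    have d3 := (((dc.const_mul 2).div_const Real.pi).neg).sub d2
    refine (d1.add (d3.div_const (4 * Real.pi))).congr_deriv ?_
    unfold w
    simp only [id, Function.comp]
    field_simp
    ring
  rw [intervalIntegral.integral_eq_sub_of_hasDerivAt h
    ((w_cont.mul (continuous_const.sub continuous_id)).intervalIntegrable _ _)]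
  have e1 : Real.pi * 2 = 2 * Real.pi := by ring
  simp only [mul_one, e1, Real.sin_pi, Real.cos_pi, Real.sin_two_pi, Real.cos_two_pi]
  field_simp
  ring

lemma j_eq {κ : ℝ} (hκ : 0 < κ) (hκ1 : κ < 1) : j κ = Pool.Agent.Y763.AG.jw κ := by
  unfold j Pool.Agent.Y763.AG.jw
  have hc : Continuous fun α : ℝ => w α * α := w_cont.mul continuous_id
  have h1 : ∫ α in (0 : ℝ)..κ, Pool.Agent.Y763.AG.wt α * α = ∫ α in (0 : ℝ)..κ, w α * α := by
    refine intervalIntegral.integral_congr fun α hα => ?_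
    rw [Set.uIcc_of_le hκ.le] at hα
    show Pool.Agent.Y763.AG.wt α * α = w α * α
    rw [Pool.Agent.Y763.AG.wt_eq hα.1 (by linarith [hα.2])]
    rfl
  have h2 := intervalIntegral.integral_add_adjacent_intervals (a := 0) (b := κ) (c := 1)
    (hc.intervalIntegrable (μ := MeasureTheory.volume) _ _) (hc.intervalIntegrable _ _)
  rw [int1] at h2
  rw [h1, int2]
  linarith

/-- **Theorem.** Assume the Riemann hypothesis and let `0 < κ < 1`.
(1) For every `c > 0` there is `δ > 0` such that for all large `T` with `J(κ, T) ≥ j(κ) + c` at least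
`δ N(T)` of the pairs of consecutive ordinates in `[δ T, T]` satisfy
`γ_{n+1} - γ_n < (1/2 - δ) 2π / log T`.
(2) For every filter `l` finer than `T → ∞`: almost all the normalised spacings are near the
half-integers `1/2, 1, 3/2, …` along `l` if and only if `J(κ, T)` tends to `j(κ)` along `l` and for
every `δ > 0` the proportion of the spacings less than `1/2 - δ` tends to zero along `l`. -/
theorem result (RH : RiemannHypothesis) (κ : ℝ) (hκ : 0 < κ) (hκ1 : κ < 1) :
    (∀ c : ℝ, 0 < c → ∃ δ : ℝ, 0 < δ ∧ ∀ᶠ T : ℝ in atTop, j κ + c ≤ J κ T →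
      δ * N T ≤ ({n : ℕ | 1 ≤ n ∧ δ * T ≤ γ n ∧ γ (n + 1) ≤ T ∧
        γ (n + 1) - γ n < (1 / 2 - δ) * (2 * Real.pi / Real.log T)}.ncard : ℝ)) ∧
    ∀ l : Filter ℝ, l ≤ atTop →
      ((∀ ε : ℝ, 0 < ε → Tendsto (fun T => away ε T) l (𝓝 0)) ↔
        Tendsto (fun T => J κ T) l (𝓝 (j κ)) ∧
          ∀ δ : ℝ, 0 < δ → Tendsto (fun T => small δ T) l (𝓝 0)) := by
  constructor
  · intro c hc
    obtain ⟨δ, hδ, h⟩ := Pool.Agent.Y763.AG.crit RH hκ hκ1 hc
    refine ⟨δ, hδ, ?_⟩
    filter_upwards [h, eventually_ge_atTop 10] with T h1 hT h2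
    rw [QT_eq]
    rw [J_eq hT hκ hκ1, j_eq hκ hκ1] at h2
    exact h1 h2
  · intro l hl
    simp only [away_eq, small_eq]
    rw [Pool.Agent.Y763.AG.equality RH hκ hκ1 hl, j_eq hκ hκ1]
    refine and_congr (tendsto_congr' ?_) Iff.rfl
    filter_upwards [hl (eventually_ge_atTop 10)] with T h2
    exact (J_eq h2 hκ hκ1).symm

end Pool.Agent.Results.MP_ca0a54_nt.SharpFormFactorCriterion
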